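import Mathlib
import Pool.Agent.T6.H28.SN.Fin3

/-!
# The automorphic sup-norm and the maximal norm of `SL(2, ℝ)` have distance `1/2`

Let `V` be a non-trivial irreducible unitarizable Harish-Chandra module of `G = SL(2, ℝ)`. It is given
as an `HCModule`: the unitary representation `(H, π)` whose space of `K`-finite vectors is `V`, the set
`S` of the weights, the unit vectors `e m` of weight `m ∈ S`, and the coefficients `a m` of the raising
operator (`dAct`: `H e_m = a_m e_(m+2) - conj(a_(m-2)) e_(m-2)`). `V` is the span of the `e m`; its
elements are the vectors `D.vec A c = ∑_{m ∈ A} c_m e_m`.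

`InNorm D p`: `p` is in `Norm(V)`, that is there is a Banach space `B` with a continuous action of `G` by
uniformly bounded operators, in which `V` is embedded as a dense subspace, compatibly with its
`(𝔤, K)`-module structure (`e m ↦ b m`), and `p` is the norm of `B` on `V`.
`IsMaximal`: `p` represents the maximal class. `D.Dom s p q` is `p ≤ C q_s` on `V` with the Sobolev
norm `q_s`, `ddist` and `dist` are `d_→` and `d`.

`IsCocompactLattice Γ`: `Γ` is discrete and `G = Γ F` for a compact set `F`. `D.Sm` is the space `V^∞` of
the smooth vectors (the vectors of `H` with rapidly decreasing coefficients) with the topology of the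
Sobolev norms, `IsInvariant` and `IsContNonzero` say that `η` is a non-zero continuous `Γ`-invariant
functional on it. `D.pAut η v = sup_g |η(π(g) v)|`.

Theorem. `p_aut` is in `Norm(V)`, a maximal class exists, and `d([p_aut], [p_max]) = 1/2`.

Proof. Upper bound: the theorem of Bernstein and Reznikov on the one hand and lower bounds of
the matrix coefficients `c_m(t) = ⟨e_m, π(a_t) e_k⟩` on the other hand give `p_max ≲ q_s ≲ (p_aut)_s` for
`s > 1/2` (`q` the Hilbert norm). Lower bound: let `v = ∑ ± e_m` with random signs, the sum over the
weights with `n ≤ |m| ≤ 2n`. For each `g` the numbers `⟨v, π(g) e_k⟩` and `η(π(g) D_s v)` are with high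
probability at most `√log` times their standard deviations, which are `≤ 1` and, by Bernstein and
Reznikov, `≤ C n^(s + 1/2)`; as it suffices to consider polynomially many `g`, one has
`|⟨v, π(g) e_k⟩| ≤ C log n` for all `g` and `p_aut(D_s v) ≤ C n^(s + 1/2) log n`. The first bound
implies `p_max(v) ≥ c ‖v‖² / log n ≥ c' n / log n`, because `w ↦ sup_g |⟨v, π(g) w⟩|` is dominated by
the maximal norm. So `p_max ≲ (p_aut)_s` fails for `s < 1/2`.
-/

set_option autoImplicit false

namespace Pool.Agent.Results.MP_bb0caf_al.DistanceOneHalf

open Pool.Agent.T6.H28.SN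

/-- For every non-trivial irreducible unitarizable Harish-Chandra module `V` of `SL(2, ℝ)`, every
cocompact lattice `Γ` and every non-zero continuous `Γ`-invariant functional `η` on `V^∞`: `p_aut` is in
`Norm(V)`, there is a maximal class in `Norm(V)`, and `d([p_aut], [p_max]) = 1/2`. -/
theorem result (D : HCModule) (Γ : Subgroup G) (η : D.H →ₗ[ℂ] ℂ) (hΓ : IsCocompactLattice Γ)
    (hinv : IsInvariant D Γ η) (hη : IsContNonzero D η) :
    InNorm D (D.pAut η) ∧ (∃ pm, IsMaximal D pm) ∧
      ∀ pm, IsMaximal D pm → D.dist (D.pAut η) pm = 1 / 2 :=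
  ModFIN3.final D Γ η hΓ hinv hη

end Pool.Agent.Results.MP_bb0caf_al.DistanceOneHalf
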